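import Pool.Agent.Q49.WU.Facts

/-!
# Critical values in odd weight: one weight at a time, and abelian varieties

Let `F` be a number field, `w ≥ 1` an odd integer and `M` the category of motives over `ℚ` for absolute
Hodge cycles with coefficients in `F` all of whose weights are odd, a semisimple abelian category with
Tate twists `N ↦ N(a)`. For a separated `ℚ`-scheme `X` of finite type and integers `N`, `n` let
`D.H N n X = Gr^W_{w+2N} H^n_c(X) ⊗ F`, the part of weight `w + 2N` of the cohomology with compact
supports. For smooth projective `X` it is the motive `h^n(X) ⊗ F` if `n = w + 2N` and zero otherwise, and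
for `X = Spec ℚ` it is zero.

For an object `N` of `M` let `C.crit N` say that `N` is pure and that `0` is critical for `N`; it is known
that the map `α⁺_N` is then an isomorphism. Let `C.L N = L(N, 0)` and let `C.c N = c⁺(N, 0)` be a
representative of Deligne's period; both are elements of `F ⊗ ℂ`. An integer `s₀` is critical for `N` if
and only if `0` is critical for `N(s₀)`, and the conjecture of question Q1 for `N` and `s₀` is
`Deligne F C (N(s₀))`. `Holds F D C N X` says that it is true for all direct factors of all Tate twists
of the objects `D.H N n X`, `n ∈ ℤ`. For smooth projective `Y` the statement `Holds F D C 0 Y` is the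
conjecture for all direct factors of `h^w(Y) ⊗ F` and all critical integers. As every pure motive of odd
weight is a direct sum of direct factors of Tate twists of motives `h^w(Y) ⊗ F`, `w` odd, question Q1 is
the statement for all odd `w`.

**Theorem.** Let `w ≥ 1` be odd. The conjecture is true for all direct factors of the motives
`h^w(Y) ⊗ F` of the smooth projective varieties `Y` over `ℚ` if and only if it is true for all direct
factors of the motives `Gr^W_{w+2(a-1)} H^n_c(X_H) ⊗ F`, `n ∈ ℤ`, for the smooth affine cubic
hypersurfaces `X_H : ∑_{(i, j, l) ∈ H} x_i y_j z_l = 1` of all finite sets `H` of triples, where `a` is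
the number of the variables `x_i`.

For `w = 1`: the conjecture for all abelian varieties over `ℚ` (the values `L(A, 1)`, with
multiplications by `F`; with Artin twists, because restrictions of scalars of abelian varieties are
abelian varieties) is equivalent to the conjecture for the direct factors of the motives
`Gr^W_{2a-1} H^n_c(X_H) ⊗ F`, that is for one weight of the hypersurfaces with coefficients `0` and `1`.
(The odd weights of `H^n_c(X_H)` which are less than `2a - 1` are zero, so this is the lowest odd weight.)
-/

set_option autoImplicit false

open CategoryTheory CategoryTheory.Limits AlgebraicGeometry Pool.Agent.Y116.UV Pool.Agent.Z125.UN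
  Pool.Agent.Q193.LT Pool.Agent.Q49.WU
open scoped TensorProduct

universe v u

namespace Pool.Agent.Results.MP_cd171c_nt.AbelianVarietiesAndWeights

/-- The conjecture for all direct factors of the Tate twists of the parts of weight `w + 2N` of the
cohomology with compact supports of `X`. -/
def Holds (F : Type) [Field F] [NumberField F] {M : Type u} [Category.{v} M] [Abelian M]
    (D : WeightData ℚ M) (C : CritData M (F ⊗[ℚ] ℂ)) (N : ℤ) (X : Sch ℚ) : Prop :=
  InAt D (TwFacts D (Deligne F C)) N X

/-- **Critical values in odd weight.** See the explanations above; by `point` the odd weights of the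
cohomology of `Spec ℚ` are zero. -/
theorem result {F : Type} [Field F] [NumberField F] {M : Type u} [Category.{v} M] [Abelian M]
    {D : WeightData ℚ M} (h : IsWMotives D) {C : CritData M (F ⊗[ℚ] ℂ)} (hC : IsCrit F C)
    (point : ∀ N n, IsZero (D.H N n (aff ℚ ℚ))) :
    (∀ Y : Sch ℚ, SmoothProj Y → Holds F D C 0 Y) ↔
      ∀ (a b c : ℕ) (H : Finset (Fin a × Fin b × Fin c)), Holds F D C (a - 1) (tripS ℚ H) := by
  have hS := deligne_twSerre (D := D) h.weight h.semisimple hC
  have h1 := sp_weight_graph h.weight h.generated hS
    (fun N n => hS.toIsSerre.zero _ (point N n)) frac_rat 0
  simp only [zero_add] at h1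
  exact h1

end Pool.Agent.Results.MP_cd171c_nt.AbelianVarietiesAndWeights
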