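import Pool.Agent.Q5.DC.Real

/-!
# Deligne's relation at the centre and the partial Euler products

Let `M` be a motive over `ℚ` of odd weight `w = 2m - 1` with coefficients in a totally real number field `F`. The central
point `m` is always critical. Let `P_p ∈ F[X]` be the polynomial `det(1 - Frob_p X | M_λ^{I_p})`, let for every embedding
`τ` of `F` the numbers `α_{τ,p,j}` be the reciprocal roots of `τ(P_p)`, and `L_τ` the component of the `L`-function; it is
assumed to be holomorphic and of polynomial growth in a half plane `Re s > m - η`. Let `Ω_τ ≠ 0` be the components of the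
period `c⁺(M, m)`. Let

`P_τ(x) = ∏_{p ≤ x} |τ(P_p)(p^(-m))|`, `P*_τ(x) = exp (- ∑_{p^k ≤ x} tr(Frob_p^k)/(k p^{mk}))`

be the (reciprocals of the) partial Euler products AT THE CENTRE, without and with the higher prime powers. For real `ρ`
and `A > 0` put `δ_τ(ρ, A; x) = log (A P*_τ(x) / (e^γ log x)^ρ)`, a product on the assumption `L_τ(s) ~ A (s - m)^ρ`.

1. Let `e ∈ F` be such that all numbers `A_τ = τ(e) Ω_τ` are positive. Equivalent are: for all `τ` the Riemann hypothesis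
   holds for `L_τ` (no zeros with `Re s > m`) and `L_τ(m) = τ(e) Ω_τ`; for all `τ` the error `δ_τ(0, A_τ; x)` is `O(1/log x)`
   in square mean; for all `τ` the mean square of `log x · δ_τ(0, A_τ; x)` tends to the convergent sum `∑ m_t²/t²` over the
   zeros `m + it`, `t ≠ 0`, of `L_τ`, with `m_t` the multiplicity.
2. The Riemann hypothesis for all `L_τ` together with DELIGNE'S RELATION at the centre, `L(M, m) ∈ Ω · F`, is equivalent
   to the following property of the partial Euler products at the centre: EITHER for one `e ∈ F` all `A_τ = τ(e) Ω_τ` are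
   positive and all errors `δ_τ(0, A_τ; x)` are `O(1/log x)` in square mean, OR for every `τ` there are real `ρ > 0` and
   `A > 0` (no relation between the different `τ`) such that `δ_τ(ρ, A; x)` is `O(1/log x)` in square mean.

The same holds for the original products `P_τ(x)`, with `A e^{c_τ}` in the place of `A`, if
`log x · (∑_{√x < p ≤ x} tr(Frob_p²)/(2 p^{2m}) - c_τ) → 0` for all `τ`.
-/

set_option autoImplicit false

namespace Pool.Agent.Results.MP_cd171c_nt.CentralRelation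

open Filter Topology Set Complex Polynomial
open Pool.Agent.Q5.DC (pStar pOrig sqs dStar dOrig RHm multM)

variable {F : Type} [Field F] {n : ℕ}

/-- The `α τ p j` are the reciprocal roots of `τ(P p)`; they have absolute values at most `p^(w/2)`, `w = 2m - 1`. -/
def IsRoots (m : ℤ) (P : Nat.Primes → F[X]) (α : (F →+* ℂ) → Nat.Primes → Fin n → ℂ) : Prop :=
  ∀ τ p, (P p).map τ = ∏ j, (1 - C (α τ p j) * X) ∧
    ∀ j, ‖α τ p j‖ ≤ (p : ℝ) ^ ((m : ℝ) - 1 / 2)

/-- `L τ` is the Euler product `∏_p τ(P p)(p^(-s))⁻¹` for `Re s > m + 1/2`, continued holomorphically and with polynomial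
growth to a half plane `Re s > m - η`. -/
def IsL (m : ℤ) (P : Nat.Primes → F[X]) (L : (F →+* ℂ) → ℂ → ℂ) : Prop :=
  ∀ τ, (∃ (η C : ℝ) (κ : ℕ), 0 < η ∧
    ∀ s : ℂ, m - η < s.re → DifferentiableAt ℂ (L τ) s ∧ ‖L τ s‖ ≤ C * (1 + ‖s‖) ^ κ) ∧
  ∀ s : ℂ, (m : ℝ) + 1 / 2 < s.re →
    HasProd (fun p : Nat.Primes => (eval₂ τ ((p : ℂ) ^ (-s)) (P p))⁻¹) (L τ s)

/-- The errors of the partial products: with the prime powers, or the original ones if the second order terms tend to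
constants with a rate. -/
def IsError (m : ℤ) (α : (F →+* ℂ) → Nat.Primes → Fin n → ℂ)
    (δ : (F →+* ℂ) → ℝ → ℝ → ℝ → ℝ) : Prop :=
  (∀ τ ρ A, δ τ ρ A = dStar m (α τ) ρ A) ∨
  ∃ c : (F →+* ℂ) → ℝ, ∀ τ,
    Tendsto (fun x : ℝ => Real.log x * (sqs m (α τ) x - c τ)) atTop (𝓝 0) ∧
    ∀ ρ A, δ τ ρ A = dOrig m (α τ) ρ A (c τ)

/-- `∫_e^X (log x · δ(x))² dx/x ≤ B log X` for some `B` and all large `X`. -/
def BoundedMeanSquare (δ : ℝ → ℝ) : Prop := ∃ B : ℝ, ∀ᶠ X : ℝ in atTop,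
  ∫ x in Real.exp 1..X, (Real.log x * δ x) ^ 2 / x ≤ B * Real.log X

/-- `∑_t m_t²/t²` converges (the term with `t = 0` is `0`) and is the limit of `(log X)⁻¹ ∫_e^X (log x · δ(x))² dx/x`. -/
def SquareLaw (m : ℤ) (f : ℂ → ℂ) (δ : ℝ → ℝ) : Prop :=
  ∃ V : ℝ, HasSum (fun t : ℝ => ((multM m f t : ℝ) / t) ^ 2) V ∧
    Tendsto (fun X : ℝ => (∫ x in Real.exp 1..X, (Real.log x * δ x) ^ 2 / x) / Real.log X) atTop
      (𝓝 V)

/-! ### proofs -/

open Pool.Agent.Q5.DC (Roots Temp LeadM IsErr err lead_exists roots_of temp_of value_of zero_of)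

/-- **Deligne's relation at the centre and the partial Euler products.** -/
theorem result (F : Type) [Field F] [NumberField F] (hreal : ∀ (τ : F →+* ℂ) (x : F), (τ x).im = 0)
    {n : ℕ} (m : ℤ) (P : Nat.Primes → F[X]) (α : (F →+* ℂ) → Nat.Primes → Fin n → ℂ)
    (hα : IsRoots m P α) (L : (F →+* ℂ) → ℂ → ℂ) (hL : IsL m P L)
    (Ω : (F →+* ℂ) → ℂ) (hΩ : ∀ τ, Ω τ ≠ 0)
    (δ : (F →+* ℂ) → ℝ → ℝ → ℝ → ℝ) (hδ : IsError m α δ) :
    (∀ (e : F) (A : (F →+* ℂ) → ℝ), (∀ τ, 0 < A τ ∧ (A τ : ℂ) = τ e * Ω τ) →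
      List.TFAE [(∀ τ, RHm m (L τ)) ∧ ∀ τ, L τ m = τ e * Ω τ,
        ∀ τ, BoundedMeanSquare (δ τ 0 (A τ)),
        ∀ τ, SquareLaw m (L τ) (δ τ 0 (A τ))]) ∧
    (((∀ τ, RHm m (L τ)) ∧ ∃ e : F, ∀ τ, L τ m = τ e * Ω τ) ↔
      (∃ e : F, ∀ τ, ∃ A : ℝ, 0 < A ∧ (A : ℂ) = τ e * Ω τ ∧ BoundedMeanSquare (δ τ 0 A)) ∨
      ∀ τ, ∃ ρ A : ℝ, 0 < ρ ∧ 0 < A ∧ BoundedMeanSquare (δ τ ρ A)) := by
  have hR : ∀ τ, Roots m (α τ) := fun τ => roots_of (hreal τ) (hα τ)
  have hT : ∀ τ, Temp m (α τ) (L τ) := fun τ => temp_of (hα τ) (hL τ)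
  have hE : ∀ τ ρ A, IsErr m (α τ) ρ A (δ τ ρ A) := by
    intro τ ρ A
    rcases hδ with h | ⟨c, h⟩
    · exact Or.inl (h τ ρ A)
    · exact Or.inr ⟨c τ, (h τ).1, (h τ).2 ρ A⟩
  have key : ∀ τ ρ A, 0 < A → (RHm m (L τ) ∧ LeadM m (L τ) ρ A ↔ BoundedMeanSquare (δ τ ρ A)) :=
    fun τ ρ A hA => (err (hR τ) (hT τ) hA (hE τ ρ A)).2.1.out 0 1
  have key2 : ∀ τ ρ A, 0 < A → (RHm m (L τ) ∧ LeadM m (L τ) ρ A ↔ SquareLaw m (L τ) (δ τ ρ A)) :=
    fun τ ρ A hA => (err (hR τ) (hT τ) hA (hE τ ρ A)).2.1.out 0 2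
  refine ⟨fun e A hA => ?_, ?_⟩
  · have h1 : ((∀ τ, RHm m (L τ)) ∧ ∀ τ, L τ m = τ e * Ω τ) ↔
        ∀ τ, RHm m (L τ) ∧ LeadM m (L τ) 0 (A τ) := by
      rw [← forall_and]
      refine forall_congr' fun τ => and_congr_right fun _ => ?_
      rw [value_of (hT τ), (hA τ).2]
    tfae_have 1 ↔ 2 := by
      rw [h1]
      exact forall_congr' fun τ => key τ 0 (A τ) (hA τ).1
    tfae_have 1 ↔ 3 := by
      rw [h1]
      exact forall_congr' fun τ => key2 τ 0 (A τ) (hA τ).1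
    tfae_finish
  · constructor
    · rintro ⟨hRH, e, he⟩
      by_cases he0 : e = 0
      · right
        intro τ
        obtain ⟨r, A, hA, h1⟩ := lead_exists (hR τ) (hT τ) (hRH τ)
        have hr : r ≠ 0 := by
          rintro rfl
          have h2 := (value_of (hT τ) (A := A)).1 ⟨0, by simp, h1⟩
          rw [he τ, he0, map_zero, zero_mul] at h2
          have : A = 0 := by exact_mod_cast h2.symm
          linarith
        refine ⟨r, A, by exact_mod_cast Nat.pos_of_ne_zero hr, hA, ?_⟩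
        exact (key τ r A hA).1 ⟨hRH τ, r, rfl, h1⟩
      · left
        refine ⟨e, fun τ => ?_⟩
        obtain ⟨r, A, hA, h1⟩ := lead_exists (hR τ) (hT τ) (hRH τ)
        have hne : L τ m ≠ 0 := by
          rw [he τ]
          exact mul_ne_zero ((map_ne_zero τ).2 he0) (hΩ τ)
        have hr : r = 0 := by
          by_contra hr
          exact hne (zero_of (hT τ) (ρ := r) (A := A) (by exact_mod_cast Nat.pos_of_ne_zero hr)
            ⟨r, rfl, h1⟩)
        subst hr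
        have h2 : LeadM m (L τ) 0 A := ⟨0, by simp, h1⟩
        have h3 := (value_of (hT τ) (A := A)).1 h2
        exact ⟨A, hA, by rw [← h3, he τ], (key τ 0 A hA).1 ⟨hRH τ, h2⟩⟩
    · rintro (⟨e, h⟩ | h)
      · refine ⟨fun τ => ?_, e, fun τ => ?_⟩
        · obtain ⟨A, hA, -, h2⟩ := h τ
          exact ((key τ 0 A hA).2 h2).1
        · obtain ⟨A, hA, h1, h2⟩ := h τ
          rw [← h1]
          exact (value_of (hT τ)).1 ((key τ 0 A hA).2 h2).2
      · refine ⟨fun τ => ?_, 0, fun τ => ?_⟩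
        · obtain ⟨ρ, A, -, hA, h2⟩ := h τ
          exact ((key τ ρ A hA).2 h2).1
        · obtain ⟨ρ, A, hρ, hA, h2⟩ := h τ
          rw [map_zero, zero_mul]
          exact zero_of (hT τ) hρ ((key τ ρ A hA).2 h2).2

end Pool.Agent.Results.MP_cd171c_nt.CentralRelation
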