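import Pool.Agent.Q193.LT.Crit

/-!
# Critical values of motives of odd weight and tripartite hypergraphs

Let `F` be a number field and `M` the category of motives over `ℚ` for absolute Hodge cycles with
coefficients in `F` all of whose weights are odd, a semisimple abelian category with Tate twists
`N ↦ N(a)`. For a separated `ℚ`-scheme `X` of finite type let `D.H i X` be the object
`⨁_{w odd} Gr^W_w H^i_c(X) ⊗ F` of `M`, the odd part of the graded object of the weight filtration of
the cohomology with compact supports; for smooth projective `X` it is `h^i(X) ⊗ F` for odd `i` and zero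
for even `i`. It is zero for `X = Spec ℚ`. As the weight filtration is strict, the long exact sequence
of a closed subscheme and its open complement gives an exact sequence in `M`.

For an object `N` of `M` let `C.crit N` say that `N` is pure and that `0` is critical for `N`; it is known
that the map `α⁺_N` is then an isomorphism. Let `C.L N = L(N, 0)` and let `C.c N = c⁺(N, 0)` be a
representative of Deligne's period; both are elements of `F ⊗ ℂ`. An integer `s₀` is critical for `N` if
and only if `0` is critical for `N(s₀)`, and the conjecture of question Q1 for `N` and `s₀` is
`Deligne F C (N(s₀))`: `L(N(s₀), 0) = e c⁺(N(s₀), 0)` for some `e ∈ F`. `Facts D (Deligne F C) N` says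
that this is true for all direct factors of all Tate twists of `N`. As every pure motive of odd weight
is a direct sum of direct factors of Tate twists of motives `h^i(Y) ⊗ F` (`i` odd), the conjecture of
question Q1 says that `Facts D (Deligne F C) (D.H i Y)` is true for all smooth projective `Y` over `ℚ`
and all `i`.

**Theorem.** (1) The conjecture of question Q1 is true for all motives of odd weight if and only if it
is true for the critical direct factors of the Tate twists of the motives `Gr^W_w H^i_c(X_H) ⊗ F`, `w`
odd, for the smooth affine cubic hypersurfaces `X_H : ∑_{(i, j, l) ∈ H} x_i y_j z_l = 1`, `H` any finite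
set of triples.

(2) For all `n`, it is true for the critical direct factors of the Tate twists of the motives
`h^i(Y) ⊗ F`, `i` odd, of all smooth projective varieties `Y` of dimension at most `n` over `ℚ` if and
only if it is true for those of `Gr^W_w H^i_c(T = 1) ⊗ F`, `w` odd, for all trilinear forms
`T(x, y, z)` over `ℚ` such that one of the three blocks of variables has at most `n + 2` variables. For
`n = 1` these are the motives of abelian varieties: so the statement for the values `L(A, 1)` of all
abelian varieties over `ℚ` (with multiplications by `F`) is equivalent to the statement for the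
hypersurfaces `T = 1` such that one of the three blocks has at most three variables.
-/

set_option autoImplicit false

open CategoryTheory CategoryTheory.Limits AlgebraicGeometry Pool.Agent.Y116.UV Pool.Agent.Z125.UN
  Pool.Agent.Q193.LT
open scoped TensorProduct

universe v u

namespace Pool.Agent.Results.MP_cd171c_nt.OddWeightPieces

/-- **Critical values of motives of odd weight and tripartite hypergraphs.** See the explanations
above. -/
theorem result {F : Type} [Field F] [NumberField F] {M : Type u} [Category.{v} M] [Abelian M]
    {D : CompactData ℚ M} (h : IsMotives D) (point : ∀ i, IsZero (D.H i (aff ℚ ℚ)))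
    {C : CritData M (F ⊗[ℚ] ℂ)} (hC : IsCrit F C) :
    ((∀ Y : Sch ℚ, SmoothProj Y → ∀ i, Facts D (Deligne F C) (D.H i Y)) ↔
      ∀ (a b c : ℕ) (H : Finset (Fin a × Fin b × Fin c)), ∀ i,
        Facts D (Deligne F C) (D.H i (tripS ℚ H))) ∧
    ∀ n : ℕ, (∀ Y : Sch ℚ, SmoothProj Y → topologicalKrullDim Y.left ≤ n →
        ∀ i, Facts D (Deligne F C) (D.H i Y)) ↔
      ∀ (a b c : ℕ) (T : Fin a → Fin b → Fin c → ℚ), (a ≤ n + 2 ∨ b ≤ n + 2 ∨ c ≤ n + 2) →
        ∀ i, Facts D (Deligne F C) (D.H i (hypS T)) := by
  have hS : IsTateSerre D (Facts D (Deligne F C)) := deligne_serre h.compact h.semisimple hC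
  have h1 : ∀ i, Facts D (Deligne F C) (D.H i (aff ℚ ℚ)) := fun i => hS.zero _ (point i)
  exact ⟨proj_graph_iff frac_rat h.compact h.generated hS h1,
    fun n => proj_iff h.compact h.generated hS h1 n⟩

end Pool.Agent.Results.MP_cd171c_nt.OddWeightPieces
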