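import Pool.Agent.Q45.ML.Real
import Pool.Agent.Q45.ML.OF

/-!
# Critical values in odd weight, totally real coefficients: size, sign and vanishing

Let `M` be a motive over `ℚ` of odd weight `w` with coefficients in a totally real number field `F`,
`P p ∈ F[X]` the polynomial `det(1 - Frob_p X | M_λ^{I_p})`; for each embedding `τ` of `F` let `α τ p j` be the
reciprocal roots of `τ(P p)` (padded by zeros) and `L τ` the component of the `L`-function, analytic at the integer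
`s₀` (for instance a critical integer, possibly the centre `(w+1)/2`). For `γ > π/2` put

`S_τ(T) = ∑_p ∑_{k ≥ 1} (∑_j (α τ p j)^k / (k p^{s₀ k})) e^{iγ k log p/T} / Γ(1 + k log p/T)`

and let `N_τ` be the number of zeros minus the number of poles of `L τ` on the real half-line `(s₀, ∞)`. Then
`L_τ(s₀) = (-1)^{N_τ} |L_τ(s₀)| = (-1)^{N_τ} e^{Re S_τ(T)} + O(1/T)`; it vanishes if and only if `Re S_τ(T) → -∞`
along one sequence; and the relation `L(M, s₀) ∈ c · F` of Deligne is read off from the numbers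
`(-1)^{N_τ} e^{Re S_τ(T)}` along one sequence.
-/

set_option autoImplicit false

namespace Pool.Agent.Results.MP_cd171c_nt.SignedCriticalValues

open Filter Topology Asymptotics Polynomial Pool.Agent.Q45.ML NumberField

/-- the term at `(p, k)`, `k = z.2 + 1`: `(∑_j α p j^k / (k p^{s₀ k})) e^{iγ k log p/T} / Γ(1 + k log p/T)` -/
noncomputable def term {n : ℕ} (α : Nat.Primes → Fin n → ℂ) (s₀ : ℤ) (γ T : ℝ) (z : Nat.Primes × ℕ) : ℂ :=
  (∑ j, α z.1 j ^ (z.2 + 1)) / ((z.2 + 1) * (z.1 : ℂ) ^ (s₀ * (z.2 + 1 : ℕ))) *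
    (Complex.exp ((γ * ((z.2 + 1) * Real.log (z.1 : ℝ) / T) : ℝ) * Complex.I) /
      (Real.Gamma (1 + (z.2 + 1) * Real.log (z.1 : ℝ) / T) : ℂ))

/-- the smoothed sum -/
noncomputable def S {n : ℕ} (α : Nat.Primes → Fin n → ℂ) (s₀ : ℤ) (γ T : ℝ) : ℂ := ∑' z, term α s₀ γ T z

/-- the number of zeros minus the number of poles of `L` on `(s₀, ∞)`, with multiplicities -/
noncomputable def count (L : ℂ → ℂ) (s₀ : ℤ) : ℤ :=
  ∑ᶠ σ ∈ Set.Ioi (s₀ : ℝ), (meromorphicOrderAt L (σ : ℂ)).untop₀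

theorem term_eq {n : ℕ} (α : Nat.Primes → Fin n → ℂ) (s₀ : ℤ) (γ T : ℝ) (z : Nat.Primes × ℕ) :
    term α s₀ γ T z = sterm (fun p : Nat.Primes => (p : ℝ)) α s₀ γ T z := by
  unfold term sterm
  congr 3
  have e : ((((z.2 : ℝ) + 1) * (s₀ : ℝ) : ℝ) : ℂ) = ((s₀ * (z.2 + 1 : ℕ) : ℤ) : ℂ) := by
    push_cast; ring
  rw [e, Complex.cpow_intCast]
  push_cast
  rfl

theorem result (F : Type) [Field F] [NumberField F] (hreal : ∀ (τ : F →+* ℂ) (x : F), (τ x).im = 0)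
    {n : ℕ} {w : ℤ} (_hw : Odd w) (P : Nat.Primes → F[X]) (α : (F →+* ℂ) → Nat.Primes → Fin n → ℂ)
    (hP : ∀ τ p, (P p).map τ = ∏ j, (1 - C (α τ p j) * X))
    (hα : ∀ τ p j, ‖α τ p j‖ ≤ (p : ℝ) ^ ((w : ℝ) / 2))
    (L : (F →+* ℂ) → ℂ → ℂ) (hmer : ∀ τ, ∀ σ : ℝ, MeromorphicAt (L τ) (σ : ℂ))
    (hL : ∀ τ, ∀ s : ℂ, (w : ℝ) / 2 + 1 < s.re →
      HasProd (fun p : Nat.Primes => (eval₂ τ ((p : ℂ) ^ (-s)) (P p))⁻¹) (L τ s))
    (s₀ : ℤ) (hs₀ : ∀ τ, AnalyticAt ℂ (L τ) s₀) (Ω : (F →+* ℂ) → ℂ) (hΩ : ∀ τ, Ω τ ≠ 0)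
    {γ : ℝ} (hγ : Real.pi / 2 < γ) :
    (∀ τ, L τ s₀ = (-1) ^ (count (L τ) s₀) * (‖L τ s₀‖ : ℂ) ∧
      (fun T : ℝ => (-1) ^ (count (L τ) s₀) * (Real.exp (S (α τ) s₀ γ T).re : ℂ) - L τ s₀) =O[atTop]
        (fun T : ℝ => 1 / T) ∧
      List.TFAE [L τ s₀ = 0, Tendsto (fun T : ℝ => (S (α τ) s₀ γ T).re) atTop atBot,
        ∃ t : ℕ → ℝ, Tendsto t atTop atTop ∧
          Tendsto (fun i => (S (α τ) s₀ γ (t i)).re) atTop atBot]) ∧
    ((∃ e : F, ∀ τ : F →+* ℂ, L τ s₀ = τ e * Ω τ) ↔ ∃ D : ℕ, 0 < D ∧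
      ∃ t : ℕ → ℝ, Tendsto t atTop atTop ∧ Tendsto
        (fun i => Metric.infDist (fun τ => (D : ℂ) *
            ((-1) ^ (count (L τ) s₀) * (Real.exp (S (α τ) s₀ γ (t i)).re : ℂ) / Ω τ))
          (Set.range fun (a : 𝓞 F) (τ : F →+* ℂ) => τ a)) atTop (𝓝 0)) := by
  set θ : ℝ := max ((w : ℝ) / 2) s₀ with hθ
  have hθ1 : (w : ℝ) / 2 ≤ θ := le_max_left _ _
  have hθ0 : (s₀ : ℝ) ≤ θ := le_max_right _ _
  have hE : ∀ τ, Eul n (fun p : Nat.Primes => (p : ℝ)) (α τ) θ 1 := fun τ =>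
    eul_q fun p j => max_bound p (hα τ p j) s₀
  have hR : ∀ τ, RealSums (α τ) := by
    intro τ p k
    refine real_sums_of_conj ?_ k
    rw [← hP τ p, Polynomial.map_map]
    congr 1
    ext x
    exact Complex.conj_eq_iff_im.2 (hreal τ x)
  have hS : ∀ τ T, smooth (fun p : Nat.Primes => (p : ℝ)) (α τ) s₀ γ T = S (α τ) s₀ γ T := by
    intro τ T
    unfold smooth S
    simp only [term_eq]
  have hmain : ∀ τ, L τ s₀ = (-1) ^ (count (L τ) s₀) * (‖L τ s₀‖ : ℂ) ∧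
      (fun T : ℝ => (-1) ^ (count (L τ) s₀) * (Real.exp (S (α τ) s₀ γ T).re : ℂ) - L τ s₀) =O[atTop]
        (fun T : ℝ => 1 / T) ∧
      List.TFAE [L τ s₀ = 0, Tendsto (fun T : ℝ => (S (α τ) s₀ γ T).re) atTop atBot,
        ∃ t : ℕ → ℝ, Tendsto t atTop atTop ∧
          Tendsto (fun i => (S (α τ) s₀ γ (t i)).re) atTop atBot] := by
    intro τ
    have hval := (hE τ).real_value (hR τ) (F := L τ) (s₀ := s₀) (by linarith)
      (fun x _ _ => hmer τ x)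
      (fun s hs => by
        refine (hL τ s (by linarith)).congr_fun fun p => ?_
        rw [eval_prod' (hP τ p), Finset.prod_inv_distrib]
        simp) (by rw [Complex.ofReal_intCast]; exact hs₀ τ) hγ
    simp only [hS, Complex.ofReal_intCast] at hval
    exact hval
  refine ⟨hmain, ?_⟩
  exact relation_iff F (f := fun τ T => (-1) ^ (count (L τ) s₀) *
    (Real.exp (S (α τ) s₀ γ T).re : ℂ)) hΩ fun τ => tendsto_of_rate (hmain τ).2.1

end Pool.Agent.Results.MP_cd171c_nt.SignedCriticalValues
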